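import Mathlib
import Pool.Agent.Q43.Cous.Final

set_option autoImplicit false

/-!
# Cousin cyclic numbers between consecutive cubes: `C(n) → ∞`
-/

namespace Pool.Agent.Results.MP_2543de_nt.CousinCyclics

/-- `m` is cyclic: `m ≥ 1` and `gcd(m, φ(m)) = 1`. -/
def IsCyclicNumber (m : ℕ) : Prop := 0 < m ∧ Nat.gcd m (Nat.totient m) = 1

open scoped Classical in
/-- The increasing enumeration of the cyclic numbers, `cyc 0 = 1`, `cyc 1 = 2`, `cyc 2 = 3`, ...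
(the `c_{j+1}` of the problem is `cyc j`). -/
noncomputable def cyc (j : ℕ) : ℕ := Nat.nth IsCyclicNumber j

/-- `C(n)`: the number of indices `j` with `n^3 < c_j < c_{j+1} < (n+1)^3` and
`c_{j+1} - c_j = 4`. -/
noncomputable def C (n : ℕ) : ℕ :=
  Nat.card {j : ℕ // n ^ 3 < cyc j ∧ cyc j < cyc (j + 1) ∧ cyc (j + 1) < (n + 1) ^ 3 ∧
    cyc (j + 1) - cyc j = 4}

open Finset
open scoped Classical

lemma isCyc_prime {p : ℕ} (hp : p.Prime) : IsCyclicNumber p := by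
  refine ⟨hp.pos, ?_⟩
  rw [Nat.totient_prime hp]
  have h : ¬ p ∣ p - 1 := by
    intro h
    have := Nat.le_of_dvd (by have := hp.two_le; omega) h
    have := hp.two_le
    omega
  exact (Nat.Prime.coprime_iff_not_dvd hp).mpr h

lemma inf : (setOf IsCyclicNumber).Infinite :=
  Nat.infinite_setOf_prime.mono (fun _ hp => isCyc_prime hp)

lemma not_even {m : ℕ} (h2 : 2 < m) (he : 2 ∣ m) : ¬ IsCyclicNumber m := by
  rintro ⟨-, h⟩
  have h3 : 2 ∣ Nat.totient m := (Nat.totient_even h2).two_dvd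
  have := Nat.dvd_gcd he h3
  rw [h] at this
  omega

lemma not_nine {m : ℕ} (h9 : 9 ∣ m) : ¬ IsCyclicNumber m := by
  rintro ⟨-, h⟩
  have h3 : 3 ∣ Nat.totient m := by
    have h4 : Nat.totient 9 ∣ Nat.totient m := Nat.totient_dvd_of_dvd h9
    have h5 : Nat.totient 9 = 6 := by decide
    rw [h5] at h4
    exact (by norm_num : 3 ∣ 6).trans h4
  have := Nat.dvd_gcd ((by norm_num : 3 ∣ 9).trans h9) h3
  rw [h] at this
  omega

lemma consecutive {c : ℕ} (h0 : IsCyclicNumber c) (h4 : IsCyclicNumber (c+4))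
    (h1 : ¬ IsCyclicNumber (c+1)) (h2 : ¬ IsCyclicNumber (c+2)) (h3 : ¬ IsCyclicNumber (c+3)) :
    cyc (Nat.count IsCyclicNumber c) = c ∧ cyc (Nat.count IsCyclicNumber c + 1) = c + 4 := by
  refine ⟨Nat.nth_count h0, ?_⟩
  have h5 : Nat.count IsCyclicNumber (c+4) = Nat.count IsCyclicNumber c + 1 := by
    rw [Nat.count_succ, Nat.count_succ, Nat.count_succ, Nat.count_succ, if_pos h0, if_neg h1,
      if_neg h2, if_neg h3]
  rw [← h5]
  exact Nat.nth_count h4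

lemma card_le_C {n : ℕ} (S : Finset ℕ)
    (hS : ∀ c ∈ S, n ^ 3 < c ∧ c + 4 < (n+1)^3 ∧ IsCyclicNumber c ∧ IsCyclicNumber (c+4) ∧
      ¬ IsCyclicNumber (c+1) ∧ ¬ IsCyclicNumber (c+2) ∧ ¬ IsCyclicNumber (c+3)) :
    S.card ≤ C n := by
  have hfin : Finite {j : ℕ // n ^ 3 < cyc j ∧ cyc j < cyc (j + 1) ∧ cyc (j + 1) < (n + 1) ^ 3 ∧
      cyc (j + 1) - cyc j = 4} := by
    apply Set.Finite.subset (Set.finite_Iio ((n+1)^3))
    rintro j ⟨-, h1, h2, -⟩
    have h3 : j ≤ cyc j := (Nat.nth_strictMono inf).le_apply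
    rw [Set.mem_Iio]
    omega
  have hmem : ∀ c ∈ S, n ^ 3 < cyc (Nat.count IsCyclicNumber c) ∧
      cyc (Nat.count IsCyclicNumber c) < cyc (Nat.count IsCyclicNumber c + 1) ∧
      cyc (Nat.count IsCyclicNumber c + 1) < (n + 1) ^ 3 ∧
      cyc (Nat.count IsCyclicNumber c + 1) - cyc (Nat.count IsCyclicNumber c) = 4 := by
    intro c hc
    obtain ⟨h1, h2, h3, h4, h5, h6, h7⟩ := hS c hc
    obtain ⟨h8, h9⟩ := consecutive h3 h4 h5 h6 h7
    rw [h8, h9]
    omega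
  have hinj : Function.Injective (fun c : S => (⟨Nat.count IsCyclicNumber c.1, hmem c.1 c.2⟩ :
      {j : ℕ // n ^ 3 < cyc j ∧ cyc j < cyc (j + 1) ∧ cyc (j + 1) < (n + 1) ^ 3 ∧
      cyc (j + 1) - cyc j = 4})) := by
    intro c c' h
    have h1 : Nat.count IsCyclicNumber c.1 = Nat.count IsCyclicNumber c'.1 :=
      congrArg Subtype.val h
    have h2 : cyc (Nat.count IsCyclicNumber c.1) = c.1 := Nat.nth_count (hS c.1 c.2).2.2.1
    have h3 : cyc (Nat.count IsCyclicNumber c'.1) = c'.1 := Nat.nth_count (hS c'.1 c'.2).2.2.1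
    apply Subtype.ext
    rw [← h2, ← h3, h1]
  have := Nat.card_le_card_of_injective _ hinj
  rw [Nat.card_eq_fintype_card, Fintype.card_coe] at this
  exact this

/-- The lower bound. -/
lemma lower : ∃ N : ℕ, ∀ n : ℕ, N ≤ n →
    n ^ 2 ≤ C n * 4 ^ (Nat.sqrt (Nat.log 2 n) + 2) ∧ 4 ^ (Nat.sqrt (Nat.log 2 n)) ≤ n := by
  obtain ⟨z₀, hz₀, h⟩ := Q43.Cous.good_ge
  refine ⟨2 ^ (z₀^2), ?_⟩
  intro n hn
  set z := Nat.sqrt (Nat.log 2 n) with hz
  have hn0 : n ≠ 0 := by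
    have : 1 ≤ 2 ^ (z₀^2) := Nat.one_le_two_pow
    omega
  have hzz : z₀ ≤ z := by
    rw [hz, Nat.le_sqrt']
    exact (Nat.le_log_iff_pow_le (by norm_num) hn0).mpr hn
  have h1 : 2 ^ (z^2) ≤ n := by
    rw [← Nat.le_log_iff_pow_le (by norm_num) hn0]
    exact Nat.sqrt_le' _
  have h2 : n < 2 ^ ((z+1)^2) := by
    rw [← Nat.log_lt_iff_lt_pow (by norm_num) hn0]
    exact Nat.lt_succ_sqrt' _
  have h3 := h n z hzz h1 h2
  obtain ⟨a, ha, ha2⟩ := Q43.Cous.hz_form (z := z) (by omega)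
  have hM2 : Q43.Cous.Mz z = 2 * Q43.Cous.hz z := (Q43.Cous.two_hz (by omega)).symm
  have h26 : 26 ≤ n := by
    have h5 : z ≤ z^2 := Nat.le_self_pow (by norm_num) z
    have h6 : z^2 < 2 ^ (z^2) := Nat.lt_two_pow_self
    omega
  have hgood : (Q43.Cous.good n (Q43.Cous.Mz z) (3 * Q43.Cous.hz z - 2)).card ≤ C n := by
    apply card_le_C
    intro c hc
    rw [Q43.Cous.good, Finset.mem_filter, Finset.mem_filter, Finset.mem_Ioc] at hc
    obtain ⟨⟨⟨hc1, hc2⟩, hc3⟩, hc4, hc5⟩ := hc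
    have hcpos : 8 < c := by
      have : n ≤ n^3 := Nat.le_self_pow (by norm_num) n
      omega
    have hmod : 18 ∣ Q43.Cous.Mz z := by
      have : Q43.Cous.Mz z = 18 * a := by omega
      exact ⟨a, this⟩
    have hc18 : c ≡ 27 * a - 2 [MOD 18] := by
      have h7 := hc3.of_dvd hmod
      rw [ha] at h7
      have h8 : 3 * (9 * a) = 27 * a := by ring
      rw [h8] at h7
      exact h7
    have hc18' : c % 18 = 7 := by
      unfold Nat.ModEq at hc18
      omega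
    refine ⟨hc1, ?_, ⟨by omega, hc4⟩, ⟨by omega, hc5⟩, ?_, ?_, ?_⟩
    · have : n^3 + n^2 + 4 < (n+1)^3 := by
        have : (n+1)^3 = n^3 + 3 * n^2 + 3 * n + 1 := by ring
        nlinarith
      omega
    · exact not_even (by omega) (by omega)
    · exact not_nine (by omega)
    · exact not_even (by omega) (by omega)
  have hM : Q43.Cous.Mz z ≤ 3 * 4 ^ z := Q43.Cous.Mz_le z
  have hMpos : (0:ℝ) < Q43.Cous.Mz z := by exact_mod_cast Q43.Cous.Mz_pos z
  refine ⟨?_, ?_⟩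
  · have h4 : (n:ℝ)^2 / (2 * Q43.Cous.Mz z) ≤ (C n : ℝ) :=
      h3.trans (by exact_mod_cast hgood)
    rw [div_le_iff₀ (by positivity)] at h4
    have h5 : n^2 ≤ C n * (2 * Q43.Cous.Mz z) := by exact_mod_cast h4
    refine h5.trans (Nat.mul_le_mul_left _ ?_)
    rw [pow_add]
    omega
  · calc 4 ^ z = 2 ^ (2 * z) := by rw [pow_mul]; norm_num
      _ ≤ 2 ^ (z^2) := Nat.pow_le_pow_right (by norm_num) (by nlinarith)
      _ ≤ n := h1

/-- **`C(n) → ∞`** (Q2): for every `k` there is `N(k)` with `C(n) ≥ k` for all `n ≥ N(k)`;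
quantitatively `C(n) ≥ n² / 4^(√(log₂ n) + 2) = n^(2 - o(1))` for all large `n`. -/
theorem result :
    (∀ k : ℕ, ∃ N : ℕ, ∀ n : ℕ, N ≤ n → k ≤ C n) ∧
    ∃ N : ℕ, ∀ n : ℕ, N ≤ n → n ^ 2 ≤ C n * 4 ^ (Nat.sqrt (Nat.log 2 n) + 2) := by
  obtain ⟨N, hN⟩ := lower
  refine ⟨?_, N, fun n hn => (hN n hn).1⟩
  intro k
  refine ⟨N + 16 * k + 1, ?_⟩
  intro n hn
  obtain ⟨h1, h2⟩ := hN n (by omega)
  by_contra hcon
  push Not at hcon
  have h3 : n ^ 2 ≤ C n * (n * 16) := by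
    refine h1.trans (Nat.mul_le_mul_left _ ?_)
    rw [pow_add]
    exact Nat.mul_le_mul h2 (by norm_num)
  have h4 : n * n ≤ n * (16 * C n) := by
    calc n * n = n ^ 2 := by ring
      _ ≤ C n * (n * 16) := h3
      _ = _ := by ring
  have h5 := Nat.le_of_mul_le_mul_left h4 (by omega)
  omega

end Pool.Agent.Results.MP_2543de_nt.CousinCyclics
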